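import Mathlib

/-!
# Trace and norm fibres over a finite field with `q ^ 2` elements
-/

namespace V1141.UN

open Finset Polynomial

lemma tight {ι : Type} (K : Finset ι) (f : ι → ℕ) (M s : ℕ) (h1 : ∀ c ∈ K, f c ≤ M)
    (h2 : K.card ≤ s) (h3 : ∑ c ∈ K, f c = s * M) : ∀ c ∈ K, f c = M := by
  have h4 : ∑ c ∈ K, f c = ∑ _c ∈ K, M := by
    apply le_antisymm (Finset.sum_le_sum h1)
    rw [h3, Finset.sum_const, smul_eq_mul]
    exact Nat.mul_le_mul_right M h2
  exact (Finset.sum_eq_sum_iff_of_le h1).1 h4

section

variable {F : Type} [Field F] [Fintype F] [DecidableEq F]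

lemma card_zeros_le (P : F[X]) (hP : P ≠ 0) :
    (univ.filter (fun x : F => P.eval x = 0)).card ≤ P.natDegree := by
  have h1 : univ.filter (fun x : F => P.eval x = 0) ⊆ P.roots.toFinset := by
    intro x hx
    rw [Finset.mem_filter] at hx
    rw [Multiset.mem_toFinset, Polynomial.mem_roots hP]
    exact hx.2
  exact (Finset.card_le_card h1).trans
    ((Multiset.toFinset_card_le _).trans (Polynomial.card_roots' P))

variable (p k : ℕ) [Fact p.Prime] [CharP F p]

/-- the conjugation `x ↦ x ^ (p ^ k)` -/
def cj : F →+* F := iterateFrobenius F p k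

lemma cj_apply (x : F) : cj p k x = x ^ (p ^ k) := iterateFrobenius_def p k x

lemma cj_cj (hF : Fintype.card F = (p ^ k) ^ 2) (x : F) : cj p k (cj p k x) = x := by
  rw [cj_apply, cj_apply, ← pow_mul, ← sq, ← hF, FiniteField.pow_card]

lemma card_fixed_le (hk : 1 < p ^ k) :
    (univ.filter (fun x : F => cj p k x = x)).card ≤ p ^ k := by
  have hP : (X ^ (p ^ k) - X : F[X]).natDegree = p ^ k :=
    FiniteField.X_pow_card_sub_X_natDegree_eq F hk
  have hP0 : (X ^ (p ^ k) - X : F[X]) ≠ 0 := by
    intro h
    rw [h, natDegree_zero] at hP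
    omega
  have h1 := card_zeros_le (X ^ (p ^ k) - X : F[X]) hP0
  rw [hP] at h1
  refine le_trans (le_of_eq ?_) h1
  congr 1
  ext x
  simp [cj_apply, sub_eq_zero]

lemma card_trace_le (hk : 1 < p ^ k) (c : F) :
    (univ.filter (fun y : F => y + cj p k y = c)).card ≤ p ^ k := by
  have hlt : (X - C c : F[X]).natDegree < (X ^ (p ^ k) : F[X]).natDegree := by
    rw [natDegree_X_sub_C, natDegree_X_pow]; exact hk
  have hP : (X ^ (p ^ k) + (X - C c) : F[X]).natDegree = p ^ k := by
    rw [natDegree_add_eq_left_of_natDegree_lt hlt, natDegree_X_pow]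
  have hP0 : (X ^ (p ^ k) + (X - C c) : F[X]) ≠ 0 := by
    intro h
    rw [h, natDegree_zero] at hP
    omega
  have h1 := card_zeros_le (X ^ (p ^ k) + (X - C c) : F[X]) hP0
  rw [hP] at h1
  refine le_trans (le_of_eq ?_) h1
  congr 1
  ext x
  simp only [mem_filter, mem_univ, true_and, cj_apply, eval_add, eval_pow, eval_X, eval_sub,
    eval_C]
  constructor
  · intro h; rw [← h]; ring
  · intro h; linear_combination h

lemma card_norm_le (c : F) :
    (univ.filter (fun u : F => u * cj p k u = c)).card ≤ p ^ k + 1 := by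
  have hP : (X ^ (p ^ k + 1) - C c : F[X]).natDegree = p ^ k + 1 := natDegree_X_pow_sub_C
  have hP0 : (X ^ (p ^ k + 1) - C c : F[X]) ≠ 0 := by
    intro h
    rw [h, natDegree_zero] at hP
    omega
  have h1 := card_zeros_le (X ^ (p ^ k + 1) - C c : F[X]) hP0
  rw [hP] at h1
  refine le_trans (le_of_eq ?_) h1
  congr 1
  ext x
  simp only [mem_filter, mem_univ, true_and, cj_apply, eval_pow, eval_X, eval_sub, eval_C]
  constructor
  · intro h; rw [← h]; ring
  · intro h; linear_combination h

theorem card_trace (hk : 1 < p ^ k) (hF : Fintype.card F = (p ^ k) ^ 2) (c : F)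
    (hc : cj p k c = c) : (univ.filter (fun y : F => y + cj p k y = c)).card = p ^ k := by
  have h := tight (univ.filter (fun x : F => cj p k x = x))
    (fun c => (univ.filter (fun y : F => y + cj p k y = c)).card) (p ^ k) (p ^ k)
    (fun c _ => card_trace_le p k hk c) (card_fixed_le p k hk) ?_ c (by simp [hc])
  · exact h
  · have h1 := Finset.card_eq_sum_card_fiberwise (s := (univ : Finset F))
      (t := univ.filter (fun x : F => cj p k x = x)) (f := fun y : F => y + cj p k y) ?_
    · rw [← h1, Finset.card_univ, hF, sq]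
    · intro y _
      simp only [Finset.coe_filter, mem_univ, true_and, Set.mem_setOf_eq, map_add,
        cj_cj p k hF]
      ring

theorem card_norm (hk : 1 < p ^ k) (hF : Fintype.card F = (p ^ k) ^ 2) (c : F) (hc0 : c ≠ 0)
    (hc : cj p k c = c) : (univ.filter (fun u : F => u * cj p k u = c)).card = p ^ k + 1 := by
  have h := tight ((univ.filter (fun x : F => cj p k x = x)).erase 0)
    (fun c => (univ.filter (fun y : F => y * cj p k y = c)).card) (p ^ k + 1) (p ^ k - 1)
    (fun c _ => card_norm_le p k c) ?_ ?_ c (by simp [hc, hc0])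
  · exact h
  · rw [Finset.card_erase_of_mem (by simp)]
    exact Nat.sub_le_sub_right (card_fixed_le p k hk) 1
  · have h1 := Finset.card_eq_sum_card_fiberwise (s := (univ : Finset F).erase 0)
      (t := (univ.filter (fun x : F => cj p k x = x)).erase 0)
      (f := fun y : F => y * cj p k y) ?_
    · rw [Finset.card_erase_of_mem (by simp), Finset.card_univ, hF] at h1
      have h2 : (p ^ k) ^ 2 - 1 = (p ^ k - 1) * (p ^ k + 1) := by
        obtain ⟨m, hm⟩ : ∃ m, p ^ k = m + 1 := ⟨p ^ k - 1, by omega⟩
        rw [hm]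
        simp only [Nat.add_sub_cancel]
        rw [show (m + 1) ^ 2 = m * (m + 1 + 1) + 1 by ring]
        simp
      rw [← h2, h1]
      apply Finset.sum_congr rfl
      intro c hc
      rw [Finset.mem_erase] at hc
      congr 1
      ext y
      simp only [mem_filter, mem_univ, true_and, mem_erase, and_true]
      constructor
      · intro hy
        refine ⟨?_, hy⟩
        rintro rfl
        apply hc.1
        rw [← hy]; simp
      · intro hy; exact hy.2
    · intro y hy
      simp only [Finset.coe_erase, Finset.coe_univ, Set.mem_diff, Set.mem_univ, true_and,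
        Set.mem_singleton_iff] at hy
      simp only [Finset.coe_erase, Finset.coe_filter, mem_univ, true_and, Set.mem_diff,
        Set.mem_setOf_eq, map_mul, cj_cj p k hF, Set.mem_singleton_iff]
      refine ⟨by ring, ?_⟩
      intro h0
      rcases mul_eq_zero.1 h0 with h0 | h0
      · exact hy h0
      · exact hy ((map_eq_zero (cj p k)).1 h0)

end

end V1141.UN
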