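import Pool.Agent.V1141.UN.Rec

/-!
# The triples inside the blocks of an O'Nan-free Steiner system `S(2, 5, n)`
-/

namespace V1141.UN

open Finset

section

variable {V : Type} [Fintype V] [DecidableEq V]

/-- all triples inside blocks -/
def triples (B : Finset (Finset V)) : Finset (Finset V) :=
  (univ.powersetCard 3).filter (fun t => ∃ b ∈ B, t ⊆ b)

lemma mem_triples {B : Finset (Finset V)} {t : Finset V} :
    t ∈ triples B ↔ t.card = 3 ∧ ∃ b ∈ B, t ⊆ b := by
  simp [triples]

theorem card_triples (B : Finset (Finset V)) (hB : IsLS B 5) :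
    (triples B).card = (Fintype.card V).choose 2 := by
  have h1 := Finset.sum_card_bipartiteAbove_eq_sum_card_bipartiteBelow
    (s := (univ : Finset V).powersetCard 2) (t := triples B) (fun p t => p ⊆ t)
  have h2 : ∀ p ∈ (univ : Finset V).powersetCard 2,
      ((triples B).bipartiteAbove (fun p t => p ⊆ t) p).card = 3 := by
    intro p hp
    rw [Finset.mem_powersetCard] at hp
    obtain ⟨x, y, hxy, rfl⟩ := Finset.card_eq_two.1 hp.2
    obtain ⟨b, hb, hx, hy⟩ := hB.exists_line x y hxy
    have h3 : (triples B).bipartiteAbove (fun p t => p ⊆ t) {x, y} =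
        (b \ {x, y}).image (fun z => insert z {x, y}) := by
      ext t
      rw [Finset.mem_bipartiteAbove, mem_triples, Finset.mem_image]
      constructor
      · rintro ⟨⟨ht3, b', hb', htb⟩, hsub⟩
        have hbb : b = b' := hB.unique b hb b' hb' x y hxy hx hy
          (htb (hsub (by simp))) (htb (hsub (by simp)))
        subst hbb
        have h4 : (t \ {x, y}).card = 1 := by
          rw [Finset.card_sdiff_of_subset hsub, ht3, hp.2]
        obtain ⟨z, hz⟩ := Finset.card_eq_one.1 h4
        have hz' : z ∈ t \ {x, y} := by rw [hz]; simp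
        rw [Finset.mem_sdiff] at hz'
        refine ⟨z, Finset.mem_sdiff.2 ⟨htb hz'.1, hz'.2⟩, ?_⟩
        have h5 : ({x, y} : Finset V) ∪ (t \ {x, y}) = t := Finset.union_sdiff_of_subset hsub
        rw [hz] at h5
        rw [← h5]
        ext w
        simp only [mem_insert, mem_singleton, mem_union]
        tauto
      · rintro ⟨z, hz, rfl⟩
        rw [Finset.mem_sdiff] at hz
        refine ⟨⟨?_, b, hb, ?_⟩, Finset.subset_insert _ _⟩
        · rw [Finset.card_insert_of_notMem hz.2, hp.2]
        · intro w hw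
          simp only [mem_insert, mem_singleton] at hw
          rcases hw with rfl | rfl | rfl
          · exact hz.1
          · exact hx
          · exact hy
    rw [h3, Finset.card_image_of_injOn, Finset.card_sdiff_of_subset, hB.card_eq b hb, hp.2]
    · intro w hw
      simp only [mem_insert, mem_singleton] at hw
      rcases hw with rfl | rfl
      · exact hx
      · exact hy
    · intro z hz w hw h
      simp only [Finset.coe_sdiff, Set.mem_sdiff, Finset.mem_coe] at hz hw
      have h6 : z ∈ insert w ({x, y} : Finset V) := by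
        have : z ∈ insert z ({x, y} : Finset V) := Finset.mem_insert_self _ _
        rw [show insert z ({x, y} : Finset V) = insert w {x, y} from h] at this
        exact this
      rcases Finset.mem_insert.1 h6 with h7 | h7
      · exact h7
      · exact absurd h7 hz.2
  have h3 : ∀ t ∈ triples B,
      (((univ : Finset V).powersetCard 2).bipartiteBelow (fun p t => p ⊆ t) t).card = 3 := by
    intro t ht
    have h4 : ((univ : Finset V).powersetCard 2).bipartiteBelow (fun p t => p ⊆ t) t
        = t.powersetCard 2 := by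
      ext p
      simp only [Finset.mem_bipartiteBelow, Finset.mem_powersetCard, Finset.subset_univ, true_and]
      tauto
    rw [h4, Finset.card_powersetCard, (mem_triples.1 ht).1]
    rfl
  rw [Finset.sum_congr rfl h2, Finset.sum_congr rfl h3, Finset.sum_const, Finset.sum_const,
    Finset.card_powersetCard, Finset.card_univ, smul_eq_mul, smul_eq_mul] at h1
  omega

theorem no_two_regular (B : Finset (Finset V)) (hB : IsLS B 5) (hO : ONF B)
    (G : Finset (Finset V)) (hG : G ⊆ triples B)
    (h2 : ∀ v ∈ G.biUnion id, (G.filter (fun e => v ∈ e)).card = 2)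
    (h6 : (G.biUnion id).card = 6) : False := by
  have h3 : ∀ e ∈ G, e.card = 3 := fun e he => (mem_triples.1 (hG he)).1
  have hb : ∀ e ∈ G, ∃ b ∈ B, e ⊆ b := fun e he => (mem_triples.1 (hG he)).2
  choose! b hbB hbs using hb
  have hW : ∀ e ∈ G, ∀ v ∈ e, v ∈ G.biUnion id := fun e he v hv =>
    Finset.mem_biUnion.2 ⟨e, he, hv⟩
  -- four edges
  have h4 : G.card = 4 := by
    have h := Finset.sum_card_bipartiteAbove_eq_sum_card_bipartiteBelow
      (s := G.biUnion id) (t := G) (fun v e => v ∈ e)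
    have e1 : ∀ v ∈ G.biUnion id, (G.bipartiteAbove (fun v e => v ∈ e) v).card = 2 := h2
    have e2 : ∀ e ∈ G, ((G.biUnion id).bipartiteBelow (fun v e => v ∈ e) e).card = 3 := by
      intro e he
      have : (G.biUnion id).bipartiteBelow (fun v e => v ∈ e) e = e := by
        ext v
        rw [Finset.mem_bipartiteBelow]
        exact ⟨fun h => h.2, fun h => ⟨hW e he v h, h⟩⟩
      rw [this, h3 e he]
    rw [Finset.sum_congr rfl e1, Finset.sum_congr rfl e2, Finset.sum_const, Finset.sum_const,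
      h6, smul_eq_mul, smul_eq_mul] at h
    omega
  -- no vertex in three edges
  have hno3 : ∀ v, ∀ e ∈ G, ∀ f ∈ G, ∀ g ∈ G, e ≠ f → e ≠ g → f ≠ g → v ∈ e → v ∈ f → v ∈ g →
      False := by
    intro v e he f hf g hg hef heg hfg ve vf vg
    have h := h2 v (hW e he v ve)
    have hsub : ({e, f, g} : Finset (Finset V)) ⊆ G.filter (fun e => v ∈ e) := by
      intro x hx
      simp only [mem_insert, mem_singleton] at hx
      rcases hx with rfl | rfl | rfl <;> simp [*]
    have hc := Finset.card_le_card hsub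
    rw [Finset.card_eq_three.2 ⟨e, f, g, hef, heg, hfg, rfl⟩] at hc
    omega
  have hshare : ∀ e ∈ G, ∀ f ∈ G, ∀ x y, x ≠ y → x ∈ b e → y ∈ b e → x ∈ b f → y ∈ b f →
      b e = b f := fun e he f hf x y hxy a1 a2 a3 a4 =>
    hB.unique _ (hbB e he) _ (hbB f hf) x y hxy a1 a2 a3 a4
  -- all blocks equal is impossible
  have hfin : ∀ b0 ∈ B, (∀ e ∈ G, b e = b0) → False := by
    intro b0 hb0 h
    have hsub : G.biUnion id ⊆ b0 := by
      intro v hv
      obtain ⟨e, he, hve⟩ := Finset.mem_biUnion.1 hv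
      rw [← h e he]
      exact hbs e he hve
    have := Finset.card_le_card hsub
    rw [h6, hB.card_eq b0 hb0] at this
    omega
  -- the two remaining edges
  have hrest : ∀ e1 ∈ G, ∀ e2 ∈ G, e1 ≠ e2 → ∃ e3 ∈ G, ∃ e4 ∈ G, e1 ≠ e3 ∧ e1 ≠ e4 ∧ e2 ≠ e3 ∧
      e2 ≠ e4 ∧ e3 ≠ e4 ∧ ∀ e ∈ G, e = e1 ∨ e = e2 ∨ e = e3 ∨ e = e4 := by
    intro e1 he1 e2 he2 h12
    have hc : ((G.erase e1).erase e2).card = 2 := by
      rw [Finset.card_erase_of_mem (Finset.mem_erase.2 ⟨h12.symm, he2⟩),
        Finset.card_erase_of_mem he1, h4]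
    obtain ⟨e3, e4, h34, h⟩ := Finset.card_eq_two.1 hc
    have m3 : e3 ∈ (G.erase e1).erase e2 := by rw [h]; simp
    have m4 : e4 ∈ (G.erase e1).erase e2 := by rw [h]; simp
    simp only [Finset.mem_erase] at m3 m4
    refine ⟨e3, m3.2.2, e4, m4.2.2, m3.2.1.symm, m4.2.1.symm, m3.1.symm, m4.1.symm, h34, ?_⟩
    intro e he
    by_cases q1 : e = e1
    · exact Or.inl q1
    by_cases q2 : e = e2
    · exact Or.inr (Or.inl q2)
    have : e ∈ (G.erase e1).erase e2 :=
      Finset.mem_erase.2 ⟨q2, Finset.mem_erase.2 ⟨q1, he⟩⟩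
    rw [h] at this
    simp only [mem_insert, mem_singleton] at this
    exact Or.inr (Or.inr this)
  by_cases hcase : ∃ e1 ∈ G, ∃ e2 ∈ G, e1 ≠ e2 ∧ ∃ x y, x ≠ y ∧ x ∈ e1 ∧ y ∈ e1 ∧ x ∈ e2 ∧ y ∈ e2
  · -- a generalised 4-cycle
    obtain ⟨e1, he1, e2, he2, h12, x, y, hxy, x1, y1, x2, y2⟩ := hcase
    obtain ⟨e3, he3, e4, he4, h13, h14, h23, h24, h34, hall⟩ := hrest e1 he1 e2 he2 h12
    have hb12 : b e1 = b e2 := hshare e1 he1 e2 he2 x y hxy (hbs _ he1 x1) (hbs _ he1 y1)
      (hbs _ he2 x2) (hbs _ he2 y2)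
    have hsub12 : ({x, y} : Finset V) ⊆ e1 ∩ e2 := by
      intro w hw
      simp only [mem_insert, mem_singleton] at hw
      rcases hw with rfl | rfl <;> simp [*]
    have hinter : 2 ≤ (e1 ∩ e2).card := by
      have := Finset.card_le_card hsub12
      rwa [Finset.card_pair hxy] at this
    have hunion : (e1 ∪ e2).card ≤ 4 := by
      have := Finset.card_union_add_card_inter e1 e2
      rw [h3 e1 he1, h3 e2 he2] at this
      omega
    -- outside vertices lie in both remaining edges
    have hout : ∀ u ∈ G.biUnion id, u ∉ e1 ∪ e2 → u ∈ e3 ∧ u ∈ e4 := by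
      intro u hu hnu
      rw [Finset.mem_union, not_or] at hnu
      have hc := h2 u hu
      have hs : G.filter (fun e => u ∈ e) ⊆ {e3, e4} := by
        intro e he
        rw [Finset.mem_filter] at he
        rcases hall e he.1 with rfl | rfl | rfl | rfl
        · exact absurd he.2 hnu.1
        · exact absurd he.2 hnu.2
        · simp
        · simp
      have heq := Finset.eq_of_subset_of_card_le hs
        (by rw [hc, Finset.card_pair h34])
      have m3 : e3 ∈ G.filter (fun e => u ∈ e) := by rw [heq]; simp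
      have m4 : e4 ∈ G.filter (fun e => u ∈ e) := by rw [heq]; simp
      exact ⟨(Finset.mem_filter.1 m3).2, (Finset.mem_filter.1 m4).2⟩
    have hsd : 2 ≤ (G.biUnion id \ (e1 ∪ e2)).card := by
      have := Finset.le_card_sdiff (e1 ∪ e2) (G.biUnion id)
      omega
    obtain ⟨u, hu, v, hv, huv⟩ := Finset.one_lt_card.1 (by omega : 1 < (G.biUnion id \ (e1 ∪ e2)).card)
    rw [Finset.mem_sdiff] at hu hv
    have hu' := hout u hu.1 hu.2
    have hv' := hout v hv.1 hv.2
    have hb34 : b e3 = b e4 := hshare e3 he3 e4 he4 u v huv (hbs _ he3 hu'.1) (hbs _ he3 hv'.1)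
      (hbs _ he4 hu'.2) (hbs _ he4 hv'.2)
    -- the third vertices of `e1` and `e2`
    have hthird : ∀ f ∈ G, ∀ g ∈ G, f ≠ g → (f = e1 ∨ f = e2) → (g = e1 ∨ g = e2) →
        ∃ z ∈ f, z ∉ g ∧ z ∈ b e3 := by
      intro f hf g hg hfg hf' hg'
      have hns : ¬ f ⊆ g := by
        intro hs
        exact hfg (Finset.eq_of_subset_of_card_le hs (by rw [h3 f hf, h3 g hg]))
      obtain ⟨z, hz1, hz2⟩ := Finset.not_subset.1 hns
      refine ⟨z, hz1, hz2, ?_⟩
      have hc := h2 z (hW f hf z hz1)
      obtain ⟨p, q, hpq, hpq'⟩ := Finset.card_eq_two.1 hc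
      have hp : p ∈ G.filter (fun e => z ∈ e) := by rw [hpq']; simp
      have hq : q ∈ G.filter (fun e => z ∈ e) := by rw [hpq']; simp
      rw [Finset.mem_filter] at hp hq
      have key : ∀ r ∈ G, z ∈ r → r ≠ f → z ∈ b e3 := by
        intro r hr hzr hrf
        rcases hall r hr with rfl | rfl | rfl | rfl
        · exfalso
          rcases hf' with rfl | rfl
          · exact hrf rfl
          · rcases hg' with rfl | rfl
            · exact hz2 hzr
            · exact hfg rfl
        · exfalso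
          rcases hf' with rfl | rfl
          · rcases hg' with rfl | rfl
            · exact hfg rfl
            · exact hz2 hzr
          · exact hrf rfl
        · exact hbs _ hr hzr
        · rw [hb34]; exact hbs _ hr hzr
      by_cases hpf : p = f
      · exact key q hq.1 hq.2 (fun h => hpq (hpf.trans h.symm))
      · exact key p hp.1 hp.2 hpf
    obtain ⟨z, hz1, hz2, hz3⟩ := hthird e1 he1 e2 he2 h12 (Or.inl rfl) (Or.inr rfl)
    obtain ⟨w, hw1, hw2, hw3⟩ := hthird e2 he2 e1 he1 h12.symm (Or.inr rfl) (Or.inl rfl)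
    have hzw : z ≠ w := fun h => hz2 (h ▸ hw1)
    have hb13 : b e1 = b e3 := hshare e1 he1 e3 he3 z w hzw (hbs _ he1 hz1)
      (by rw [hb12]; exact hbs _ he2 hw1) hz3 hw3
    apply hfin (b e1) (hbB e1 he1)
    intro e he
    rcases hall e he with rfl | rfl | rfl | rfl
    · rfl
    · exact hb12.symm
    · exact hb13.symm
    · rw [hb13, hb34]
  · -- a Pasch configuration
    push Not at hcase
    have hle1 : ∀ e ∈ G, ∀ f ∈ G, e ≠ f → (e ∩ f).card ≤ 1 := by
      intro e he f hf hef
      rw [Finset.card_le_one]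
      intro x hx y hy
      rw [Finset.mem_inter] at hx hy
      by_contra hxy
      exact hcase e he f hf hef x y hxy hx.1 hy.1 hx.2 hy.2
    have hmeet : ∀ e ∈ G, ∀ f ∈ G, e ≠ f → ∃ v, v ∈ e ∧ v ∈ f := by
      intro e he f hf hef
      by_contra hno
      push Not at hno
      obtain ⟨g, hg, g', hg', heg, heg', hfg, hfg', hgg', hall⟩ := hrest e he f hf hef
      have hsub : e ⊆ (e ∩ g) ∪ (e ∩ g') := by
        intro v hv
        have hc := h2 v (hW e he v hv)
        obtain ⟨p, q, hpq, hpq'⟩ := Finset.card_eq_two.1 hc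
        have hp : p ∈ G.filter (fun e => v ∈ e) := by rw [hpq']; simp
        have hq : q ∈ G.filter (fun e => v ∈ e) := by rw [hpq']; simp
        rw [Finset.mem_filter] at hp hq
        have key : ∀ r ∈ G, v ∈ r → r ≠ e → v ∈ (e ∩ g) ∪ (e ∩ g') := by
          intro r hr hvr hre
          rw [Finset.mem_union, Finset.mem_inter, Finset.mem_inter]
          rcases hall r hr with rfl | rfl | rfl | rfl
          · exact absurd rfl hre
          · exact absurd hvr (hno v hv)
          · exact Or.inl ⟨hv, hvr⟩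
          · exact Or.inr ⟨hv, hvr⟩
        by_cases hpe : p = e
        · exact key q hq.1 hq.2 (fun h => hpq (hpe.trans h.symm))
        · exact key p hp.1 hp.2 hpe
      have c1 := Finset.card_le_card hsub
      have c2 := Finset.card_union_le (e ∩ g) (e ∩ g')
      have c3 := hle1 e he g hg heg
      have c4 := hle1 e he g' hg' heg'
      rw [h3 e he] at c1
      omega
    obtain ⟨e1, he1, e2, he2, h12⟩ := Finset.one_lt_card.1 (by omega : 1 < G.card)
    obtain ⟨e3, he3, e4, he4, h13, h14, h23, h24, h34, hall⟩ := hrest e1 he1 e2 he2 h12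
    obtain ⟨va, a1, a2⟩ := hmeet e1 he1 e2 he2 h12
    obtain ⟨vb, b1, b3⟩ := hmeet e1 he1 e3 he3 h13
    obtain ⟨vc, c1, c4⟩ := hmeet e1 he1 e4 he4 h14
    obtain ⟨vd, d2, d3⟩ := hmeet e2 he2 e3 he3 h23
    obtain ⟨ve, e2', e4'⟩ := hmeet e2 he2 e4 he4 h24
    obtain ⟨vf, f3, f4⟩ := hmeet e3 he3 e4 he4 h34
    have nca : vc ≠ va := by
      rintro rfl; exact hno3 _ e1 he1 e2 he2 e4 he4 h12 h14 h24 a1 a2 c4
    have ned : ve ≠ vd := by
      rintro rfl; exact hno3 _ e2 he2 e3 he3 e4 he4 h23 h24 h34 e2' d3 e4'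
    have nfb : vf ≠ vb := by
      rintro rfl; exact hno3 _ e1 he1 e3 he3 e4 he4 h13 h14 h34 b1 b3 f4
    have nab : va ≠ vb := by
      rintro rfl; exact hno3 _ e1 he1 e2 he2 e3 he3 h12 h13 h23 a1 a2 b3
    have nad : va ≠ vd := by
      rintro rfl; exact hno3 _ e1 he1 e2 he2 e3 he3 h12 h13 h23 a1 a2 d3
    have nbd : vb ≠ vd := by
      rintro rfl; exact hno3 _ e1 he1 e2 he2 e3 he3 h12 h13 h23 b1 d2 b3
    have nce : vc ≠ ve := by
      rintro rfl; exact hno3 _ e1 he1 e2 he2 e4 he4 h12 h14 h24 c1 e2' c4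
    have hd1 : vd ∈ b e1 := hO va vb vc vd ve vf nca ned nfb nab nad nbd nce
      (b e1) (hbB e1 he1) (b e2) (hbB e2 he2) (b e3) (hbB e3 he3) (b e4) (hbB e4 he4)
      (hbs _ he1 a1) (hbs _ he1 b1) (hbs _ he1 c1) (hbs _ he2 a2) (hbs _ he2 d2) (hbs _ he2 e2')
      (hbs _ he3 b3) (hbs _ he3 d3) (hbs _ he3 f3) (hbs _ he4 c4) (hbs _ he4 e4') (hbs _ he4 f4)
    have q12 : b e1 = b e2 := hshare e1 he1 e2 he2 va vd nad (hbs _ he1 a1) hd1 (hbs _ he2 a2)
      (hbs _ he2 d2)
    have q13 : b e1 = b e3 := hshare e1 he1 e3 he3 vb vd nbd (hbs _ he1 b1) hd1 (hbs _ he3 b3)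
      (hbs _ he3 d3)
    have q14 : b e1 = b e4 := hshare e1 he1 e4 he4 vc ve nce (hbs _ he1 c1)
      (by rw [q12]; exact hbs _ he2 e2') (hbs _ he4 c4) (hbs _ he4 e4')
    apply hfin (b e1) (hbB e1 he1)
    intro e he
    rcases hall e he with rfl | rfl | rfl | rfl
    · rfl
    · exact q12.symm
    · exact q13.symm
    · exact q14.symm

end

end V1141.UN
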