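import Pool.Agent.V1141.UN.Space

/-!
# Filling the blocks: O'Nan-free Steiner systems `S(2, 5, 4 ^ (3 ^ e) + 1)`
-/

namespace V1141.UN

open Finset

section

variable {V : Type} [DecidableEq V]

theorem compose (L : Finset (Finset V)) (m : ℕ) (hL : IsLS L m) (hO : ONF L)
    (B : Finset (Finset (Fin m))) (r : ℕ) (hB : IsLS B r) (hBO : ONF B) :
    ∃ C : Finset (Finset V), IsLS C r ∧ ONF C := by
  have hemb : ∀ l : {l // l ∈ L}, ∃ g : Fin m ↪ V, ∀ x, x ∈ l.1 ↔ ∃ i, g i = x := by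
    intro l
    have e := Finset.equivFinOfCardEq (hL.card_eq l.1 l.2)
    refine ⟨e.symm.toEmbedding.trans (Function.Embedding.subtype _), fun x => ?_⟩
    constructor
    · intro hx
      exact ⟨e ⟨x, hx⟩, by simp⟩
    · rintro ⟨i, rfl⟩
      exact (e.symm i).2
  choose g hg using hemb
  let C : Finset (Finset V) := L.attach.biUnion (fun l => B.image (fun b => b.map (g l)))
  have hC : ∀ c, c ∈ C ↔ ∃ l : {l // l ∈ L}, ∃ b ∈ B, b.map (g l) = c := by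
    intro c
    simp only [C, mem_biUnion, mem_attach, true_and, mem_image]
  have hsub : ∀ (l : {l // l ∈ L}) (b : Finset (Fin m)) (x : V), x ∈ b.map (g l) → x ∈ l.1 := by
    intro l b x hx
    obtain ⟨i, _, rfl⟩ := Finset.mem_map.1 hx
    exact (hg l _).2 ⟨i, rfl⟩
  refine ⟨C, ⟨?_, ?_, ?_⟩, ?_⟩
  · intro c hc
    obtain ⟨l, b, hb, rfl⟩ := (hC c).1 hc
    rw [Finset.card_map]
    exact hB.card_eq b hb
  · intro x y hxy
    obtain ⟨l, hl, hx, hy⟩ := hL.exists_line x y hxy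
    obtain ⟨i, rfl⟩ := (hg ⟨l, hl⟩ x).1 hx
    obtain ⟨j, rfl⟩ := (hg ⟨l, hl⟩ y).1 hy
    obtain ⟨b, hb, hi, hj⟩ := hB.exists_line i j (fun h => hxy (by rw [h]))
    exact ⟨b.map (g ⟨l, hl⟩), (hC _).2 ⟨⟨l, hl⟩, b, hb, rfl⟩, Finset.mem_map_of_mem _ hi,
      Finset.mem_map_of_mem _ hj⟩
  · intro c hc c' hc' x y hxy h1 h2 h3 h4
    obtain ⟨l, b, hb, rfl⟩ := (hC c).1 hc
    obtain ⟨l', b', hb', rfl⟩ := (hC c').1 hc'
    have hll : l = l' := Subtype.ext (hL.unique l.1 l.2 l'.1 l'.2 x y hxy (hsub l b x h1)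
      (hsub l b y h2) (hsub l' b' x h3) (hsub l' b' y h4))
    subst hll
    obtain ⟨i, hi, rfl⟩ := Finset.mem_map.1 h1
    obtain ⟨j, hj, rfl⟩ := Finset.mem_map.1 h2
    rw [Finset.mem_map' (g l)] at h3 h4
    rw [hB.unique b hb b' hb' i j (fun h => hxy (by rw [h])) hi hj h3 h4]
  · intro a b c d e f hca hed hfb hab had hbd hce l1 h1 l2 h2 l3 h3 l4 h4
      a1 b1 c1 a2 d2 e2 b3 d3 f3 c4 e4 f4
    obtain ⟨m1, n1, hn1, rfl⟩ := (hC l1).1 h1
    obtain ⟨m2, n2, hn2, rfl⟩ := (hC l2).1 h2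
    obtain ⟨m3, n3, hn3, rfl⟩ := (hC l3).1 h3
    obtain ⟨m4, n4, hn4, rfl⟩ := (hC l4).1 h4
    have hd1 : d ∈ m1.1 := hO a b c d e f hca hed hfb hab had hbd hce m1.1 m1.2 m2.1 m2.2 m3.1
      m3.2 m4.1 m4.2 (hsub _ _ _ a1) (hsub _ _ _ b1) (hsub _ _ _ c1) (hsub _ _ _ a2)
      (hsub _ _ _ d2) (hsub _ _ _ e2) (hsub _ _ _ b3) (hsub _ _ _ d3) (hsub _ _ _ f3)
      (hsub _ _ _ c4) (hsub _ _ _ e4) (hsub _ _ _ f4)
    have hm2 : m1 = m2 := Subtype.ext (hL.unique m1.1 m1.2 m2.1 m2.2 a d had (hsub _ _ _ a1)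
      hd1 (hsub _ _ _ a2) (hsub _ _ _ d2))
    have hm3 : m1 = m3 := Subtype.ext (hL.unique m1.1 m1.2 m3.1 m3.2 b d hbd (hsub _ _ _ b1)
      hd1 (hsub _ _ _ b3) (hsub _ _ _ d3))
    subst hm2
    subst hm3
    have hm4 : m1 = m4 := Subtype.ext (hL.unique m1.1 m1.2 m4.1 m4.2 c e hce (hsub _ _ _ c1)
      (hsub _ _ _ e2) (hsub _ _ _ c4) (hsub _ _ _ e4))
    subst hm4
    obtain ⟨a', _, rfl⟩ := Finset.mem_map.1 a1
    obtain ⟨b', _, rfl⟩ := Finset.mem_map.1 b1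
    obtain ⟨c', _, rfl⟩ := Finset.mem_map.1 c1
    obtain ⟨d', _, rfl⟩ := Finset.mem_map.1 d2
    obtain ⟨e', _, rfl⟩ := Finset.mem_map.1 e2
    obtain ⟨f', _, rfl⟩ := Finset.mem_map.1 f3
    rw [Finset.mem_map' (g m1)] at a1 b1 c1 a2 d2 e2 b3 d3 f3 c4 e4 f4 ⊢
    exact hBO a' b' c' d' e' f' (fun h => hca (by rw [h])) (fun h => hed (by rw [h]))
      (fun h => hfb (by rw [h])) (fun h => hab (by rw [h])) (fun h => had (by rw [h]))
      (fun h => hbd (by rw [h])) (fun h => hce (by rw [h])) n1 hn1 n2 hn2 n3 hn3 n4 hn4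
      a1 b1 c1 a2 d2 e2 b3 d3 f3 c4 e4 f4

/-- transport along a bijection -/
theorem transport {W : Type} [DecidableEq W] (e : V ≃ W) (L : Finset (Finset V)) (m : ℕ)
    (hL : IsLS L m) (hO : ONF L) : ∃ C : Finset (Finset W), IsLS C m ∧ ONF C := by
  have hmem : ∀ (l : Finset V) (x : W), x ∈ l.map e.toEmbedding ↔ e.symm x ∈ l := by
    intro l x
    rw [Finset.mem_map_equiv]
  refine ⟨L.image (fun l => l.map e.toEmbedding), ⟨?_, ?_, ?_⟩, ?_⟩
  · intro c hc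
    obtain ⟨l, hl, rfl⟩ := Finset.mem_image.1 hc
    rw [Finset.card_map]
    exact hL.card_eq l hl
  · intro x y hxy
    obtain ⟨l, hl, h1, h2⟩ := hL.exists_line (e.symm x) (e.symm y)
      (fun h => hxy (e.symm.injective h))
    exact ⟨_, Finset.mem_image_of_mem _ hl, (hmem l x).2 h1, (hmem l y).2 h2⟩
  · intro c hc c' hc' x y hxy h1 h2 h3 h4
    obtain ⟨l, hl, rfl⟩ := Finset.mem_image.1 hc
    obtain ⟨l', hl', rfl⟩ := Finset.mem_image.1 hc'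
    rw [hmem] at h1 h2 h3 h4
    rw [hL.unique l hl l' hl' _ _ (fun h => hxy (e.symm.injective h)) h1 h2 h3 h4]
  · intro a b c d f g hca hed hfb hab had hbd hce l1 h1 l2 h2 l3 h3 l4 h4
      a1 b1 c1 a2 d2 e2 b3 d3 f3 c4 e4 f4
    obtain ⟨n1, hn1, rfl⟩ := Finset.mem_image.1 h1
    obtain ⟨n2, hn2, rfl⟩ := Finset.mem_image.1 h2
    obtain ⟨n3, hn3, rfl⟩ := Finset.mem_image.1 h3
    obtain ⟨n4, hn4, rfl⟩ := Finset.mem_image.1 h4
    rw [hmem] at a1 b1 c1 a2 d2 e2 b3 d3 f3 c4 e4 f4 ⊢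
    have hi := e.symm.injective
    exact hO _ _ _ _ _ _ (fun h => hca (hi h)) (fun h => hed (hi h)) (fun h => hfb (hi h))
      (fun h => hab (hi h)) (fun h => had (hi h)) (fun h => hbd (hi h)) (fun h => hce (hi h))
      n1 hn1 n2 hn2 n3 hn3 n4 hn4 a1 b1 c1 a2 d2 e2 b3 d3 f3 c4 e4 f4

end

/-- O'Nan-free Steiner systems `S(2, 5, 4 ^ (3 ^ e) + 1)`. -/
theorem exists_S25 (e : ℕ) :
    ∃ B : Finset (Finset (Fin (4 ^ (3 ^ e) + 1))), IsLS B 5 ∧ ONF B := by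
  induction e with
  | zero =>
    refine ⟨{univ}, ⟨?_, ?_, ?_⟩, ?_⟩
    · intro l hl
      rw [Finset.mem_singleton] at hl
      subst hl
      simp
    · intro x y _
      exact ⟨univ, Finset.mem_singleton_self _, mem_univ _, mem_univ _⟩
    · intro l hl l' hl' x y _ _ _ _ _
      rw [Finset.mem_singleton] at hl hl'
      rw [hl, hl']
    · intro a b c d e f _ _ _ _ _ _ _ l1 h1 l2 h2 l3 h3 l4 h4 _ _ _ _ _ _ _ _ _ _ _ _
      rw [Finset.mem_singleton] at h1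
      subst h1
      exact mem_univ _
  | succ e ih =>
    classical
    have : Fact (Nat.Prime 2) := ⟨Nat.prime_two⟩
    set k := 2 * 3 ^ e with hk
    have hq : 2 ^ k = 4 ^ (3 ^ e) := by
      rw [hk, pow_mul]
      norm_num
    rw [← hq] at ih
    obtain ⟨B, hB, hBO⟩ := ih
    have hk1 : 1 < 2 ^ k := by
      apply Nat.one_lt_two_pow
      rw [hk]
      positivity
    let : Fintype (GaloisField 2 (2 * k)) := Fintype.ofFinite _
    have hF : Fintype.card (GaloisField 2 (2 * k)) = (2 ^ k) ^ 2 := by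
      rw [← Nat.card_eq_fintype_card, GaloisField.card 2 (2 * k) (by rw [hk]; positivity),
        ← pow_mul, mul_comm 2 k]
    have h1 := blocks_isLS (F := GaloisField 2 (2 * k)) 2 k hk1 hF
    have h2 := blocks_onf (F := GaloisField 2 (2 * k)) 2 k
    have h3 := card_pts (F := GaloisField 2 (2 * k)) 2 k hk1 hF
    obtain ⟨C, hC, hCO⟩ := compose _ _ h1 h2 B 5 hB hBO
    have hn : (2 ^ k) ^ 3 + 1 = 4 ^ (3 ^ (e + 1)) + 1 := by
      rw [hq, ← pow_mul, pow_succ]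
    rw [hn] at h3
    exact transport (Fintype.equivFinOfCardEq h3) C 5 hC hCO

end V1141.UN
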