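import Pool.Agent.V1141.UN.Unital

/-!
# The Hermitian unital as a Steiner system `S(2, q + 1, q ^ 3 + 1)`
-/

namespace V1141.UN

open Finset

section

variable {F : Type} [Field F] [Fintype F] [DecidableEq F]
variable (p k : ℕ) [Fact p.Prime] [CharP F p]

/-- affine points of the unital -/
def Aff (F : Type) [Field F] (p k : ℕ) [Fact p.Prime] [CharP F p] : Type :=
  {z : F × F // z.2 + cj p k z.2 = z.1 * cj p k z.1}

instance : DecidableEq (Aff F p k) := by unfold Aff; infer_instance
instance : Fintype (Aff F p k) := by unfold Aff; infer_instance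

/-- points of the unital -/
abbrev Pts (F : Type) [Field F] (p k : ℕ) [Fact p.Prime] [CharP F p] : Type :=
  Option (Aff F p k)

/-- representatives -/
def rep : Pts F p k → F × F × F
  | none => (0, 0, 1)
  | some z => (1, z.1.1, z.1.2)

lemma rep_nrm (v : Pts F p k) : Nrm (rep p k v) := by
  rcases v with _ | z
  · exact Or.inr rfl
  · exact Or.inl rfl

lemma rep_hf (v : Pts F p k) : hf (cj p k) (rep p k v) (rep p k v) = 0 := by
  rcases v with _ | z
  · simp [rep, hf]
  · have h := z.2
    simp only [rep, hf, map_one, mul_one, one_mul]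
    linear_combination h

lemma rep_inj : Function.Injective (rep p k : Pts F p k → F × F × F) := by
  intro v w h
  rcases v with _ | v <;> rcases w with _ | w
  · rfl
  · simp [rep] at h
  · simp [rep] at h
  · simp only [rep, Prod.mk.injEq, true_and] at h
    congr 1
    exact Subtype.ext (Prod.ext h.1 h.2)

/-- the points of the unital on a line -/
def line : F ⊕ (F × F) → Finset (Pts F p k)
  | Sum.inl a => univ.filter (fun v => (rep p k v).2.1 = a * (rep p k v).1)
  | Sum.inr t => univ.filter
      (fun v => (rep p k v).2.2 = t.1 * (rep p k v).2.1 + t.2 * (rep p k v).1)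

lemma line_dt (t : F ⊕ (F × F)) {a b c : Pts F p k} (ha : a ∈ line p k t)
    (hb : b ∈ line p k t) (hc : c ∈ line p k t) :
    dt (rep p k a) (rep p k b) (rep p k c) = 0 := by
  rcases t with t | t
  · simp only [line, mem_filter, mem_univ, true_and] at ha hb hc
    simp only [dt, ha, hb, hc]
    ring
  · simp only [line, mem_filter, mem_univ, true_and] at ha hb hc
    simp only [dt, ha, hb, hc]
    ring

lemma exists_line {v w : Pts F p k} (h : v ≠ w) :
    ∃ t, v ∈ line p k t ∧ w ∈ line p k t := by
  rcases v with _ | v <;> rcases w with _ | w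
  · exact absurd rfl h
  · exact ⟨Sum.inl w.1.1, by simp [line, rep], by simp [line, rep]⟩
  · exact ⟨Sum.inl v.1.1, by simp [line, rep], by simp [line, rep]⟩
  · by_cases hx : v.1.1 = w.1.1
    · exact ⟨Sum.inl v.1.1, by simp [line, rep], by simp [line, rep, hx]⟩
    · have hx' : v.1.1 - w.1.1 ≠ 0 := sub_ne_zero.2 hx
      refine ⟨Sum.inr ((v.1.2 - w.1.2) / (v.1.1 - w.1.1),
        v.1.2 - (v.1.2 - w.1.2) / (v.1.1 - w.1.1) * v.1.1), ?_, ?_⟩
      · simp [line, rep]
      · simp only [line, rep, mem_filter, mem_univ, true_and, mul_one]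
        field_simp
        ring

lemma line_unique {v w : Pts F p k} (h : v ≠ w) {t u : F ⊕ (F × F)} (h1 : v ∈ line p k t)
    (h2 : w ∈ line p k t) (h3 : v ∈ line p k u) (h4 : w ∈ line p k u) : t = u := by
  rcases t with a | t <;> rcases u with b | u <;> rcases v with _ | v <;> rcases w with _ | w <;>
    simp only [line, rep, mem_filter, mem_univ, true_and, mul_one, mul_zero, add_zero,
      one_ne_zero, zero_ne_one] at h1 h2 h3 h4
  · exact absurd rfl h
  · rw [← h2, ← h4]
  · rw [← h1, ← h3]
  · rw [← h1, ← h3]
  · exfalso
    apply h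
    congr 1
    apply Subtype.ext
    apply Prod.ext
    · rw [h1, h2]
    · rw [h3, h4, h1, h2]
  · exfalso
    apply h
    congr 1
    apply Subtype.ext
    apply Prod.ext
    · rw [h3, h4]
    · rw [h1, h2, h3, h4]
  · have hx : v.1.1 - w.1.1 ≠ 0 := by
      intro hx
      rw [sub_eq_zero] at hx
      apply h
      congr 1
      apply Subtype.ext
      apply Prod.ext
      · exact hx
      · rw [h1, h2, hx]
    have e1 : t.1 = u.1 := by
      have : (t.1 - u.1) * (v.1.1 - w.1.1) = 0 := by
        linear_combination h3 - h4 - h1 + h2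
      rcases mul_eq_zero.1 this with h0 | h0
      · exact sub_eq_zero.1 h0
      · exact absurd h0 hx
    have e2 : t.2 = u.2 := by
      have : t.2 - u.2 = 0 := by
        rw [h1, e1] at h3
        linear_combination h3
      exact sub_eq_zero.1 this
    rw [show t = u from Prod.ext e1 e2]

variable (hk : 1 < p ^ k) (hF : Fintype.card F = (p ^ k) ^ 2)

include hk hF in
lemma card_line_inl (a : F) : (line p k (Sum.inl a)).card = p ^ k + 1 := by
  have h0 := card_trace p k hk hF (a * cj p k a) (by rw [map_mul, cj_cj p k hF]; ring)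
  rw [← h0]
  have h1 : (line p k (Sum.inl a) : Finset (Pts F p k)) =
      insert none ((univ.filter (fun y : F => y + cj p k y = a * cj p k a)).attach.image
        (fun y => some ⟨(a, y.1), (Finset.mem_filter.1 y.2).2⟩)) := by
    ext v
    rcases v with _ | v
    · simp [line, rep]
    · simp only [line, rep, mem_filter, mem_univ, true_and, mul_one, mem_insert, reduceCtorEq,
        mem_image, mem_attach, Subtype.exists, false_or, Option.some.injEq]
      constructor
      · intro h
        refine ⟨v.1.2, ?_, ?_⟩
        · have := v.2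
          rw [h] at this
          exact this
        · apply Subtype.ext
          exact Prod.ext h.symm rfl
      · rintro ⟨y, hy, rfl⟩
        rfl
  rw [h1, Finset.card_insert_of_notMem, Finset.card_image_of_injective, Finset.card_attach]
  · intro y z h
    simp only [Option.some.injEq] at h
    have h' := congrArg (fun z : Aff F p k => z.1.2) h
    exact Subtype.ext h'
  · simp

include hk hF in
lemma card_line_inr (m b : F)
    (h0 : m * cj p k m + (b + cj p k b) ≠ 0) :
    (line p k (Sum.inr (m, b))).card = p ^ k + 1 := by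
  set c := m * cj p k m + (b + cj p k b) with hc
  have hcc : cj p k c = c := by
    rw [hc]; simp only [map_add, map_mul, cj_cj p k hF]; ring
  rw [← card_norm p k hk hF c h0 hcc]
  have hmem : ∀ u : F, u * cj p k u = c →
      (m * (u + cj p k m) + b) + cj p k (m * (u + cj p k m) + b)
        = (u + cj p k m) * cj p k (u + cj p k m) := by
    intro u hu
    simp only [map_add, map_mul, cj_cj p k hF]
    rw [hc] at hu
    linear_combination -hu
  have h1 : (line p k (Sum.inr (m, b)) : Finset (Pts F p k)) =
      ((univ.filter (fun u : F => u * cj p k u = c)).attach.image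
        (fun u => some ⟨(u.1 + cj p k m, m * (u.1 + cj p k m) + b),
          hmem u.1 (Finset.mem_filter.1 u.2).2⟩)) := by
    ext v
    rcases v with _ | v
    · simp [line, rep]
    · simp only [line, rep, mem_filter, mem_univ, true_and, mul_one,
        mem_image, mem_attach, Subtype.exists, Option.some.injEq]
      constructor
      · intro h
        refine ⟨v.1.1 - cj p k m, ?_, ?_⟩
        · have := v.2
          rw [h] at this
          simp only [map_add, map_mul, map_sub, cj_cj p k hF] at this ⊢
          rw [hc]
          linear_combination -this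
        · apply Subtype.ext
          apply Prod.ext
          · simp
          · simp only [sub_add_cancel]
            exact h.symm
      · rintro ⟨u, hu, rfl⟩
        rfl
  rw [h1, Finset.card_image_of_injective, Finset.card_attach]
  intro y z h
  simp only [Option.some.injEq] at h
  have h' := congrArg (fun z : Aff F p k => z.1.1) h
  exact Subtype.ext (add_right_cancel h')

include hk hF in
lemma card_line {v w : Pts F p k} (h : v ≠ w) {t : F ⊕ (F × F)} (h1 : v ∈ line p k t)
    (h2 : w ∈ line p k t) : (line p k t).card = p ^ k + 1 := by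
  rcases t with a | ⟨m, b⟩
  · exact card_line_inl p k hk hF a
  · apply card_line_inr p k hk hF
    intro h0
    have key : ∀ z : Pts F p k, z ∈ line p k (Sum.inr (m, b)) →
        ∃ z' : Aff F p k, z = some z' ∧ z'.1.1 = cj p k m ∧ z'.1.2 = m * cj p k m + b := by
      intro z hz
      rcases z with _ | z
      · simp [line, rep] at hz
      · simp only [line, rep, mem_filter, mem_univ, true_and, mul_one] at hz
        have hz2 := z.2
        rw [hz] at hz2
        simp only [map_add, map_mul] at hz2
        have h3 : (z.1.1 - cj p k m) * cj p k (z.1.1 - cj p k m) = 0 := by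
          simp only [map_sub, cj_cj p k hF]
          linear_combination -hz2 + h0
        have h4 : z.1.1 = cj p k m := by
          rcases mul_eq_zero.1 h3 with h5 | h5
          · exact sub_eq_zero.1 h5
          · exact sub_eq_zero.1 ((map_eq_zero (cj p k)).1 h5)
        exact ⟨z, rfl, h4, by rw [hz, h4]⟩
    obtain ⟨v', rfl, hv1, hv2⟩ := key v h1
    obtain ⟨w', rfl, hw1, hw2⟩ := key w h2
    apply h
    congr 1
    apply Subtype.ext
    exact Prod.ext (by rw [hv1, hw1]) (by rw [hv2, hw2])

/-- the blocks of the unital -/
def blocks (F : Type) [Field F] [Fintype F] [DecidableEq F] (p k : ℕ) [Fact p.Prime] [CharP F p] :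
    Finset (Finset (Pts F p k)) :=
  (univ.image (line p k)).filter (fun l => l.card = p ^ k + 1)

include hk hF in
theorem blocks_isLS : IsLS (blocks F p k) (p ^ k + 1) where
  card_eq l hl := (Finset.mem_filter.1 hl).2
  exists_line x y hxy := by
    obtain ⟨t, h1, h2⟩ := exists_line p k hxy
    exact ⟨line p k t, Finset.mem_filter.2 ⟨Finset.mem_image_of_mem _ (mem_univ t),
      card_line p k hk hF hxy h1 h2⟩, h1, h2⟩
  unique l hl l' hl' x y hxy h1 h2 h3 h4 := by
    obtain ⟨t, _, rfl⟩ := Finset.mem_image.1 (Finset.mem_filter.1 hl).1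
    obtain ⟨u, _, rfl⟩ := Finset.mem_image.1 (Finset.mem_filter.1 hl').1
    rw [line_unique p k hxy h1 h2 h3 h4]

theorem blocks_onf : ONF (blocks F p k) := by
  intro a b c d e f hca hed hfb hab had hbd hce l1 h1 l2 h2 l3 h3 l4 h4
    a1 b1 c1 a2 d2 e2 b3 d3 f3 c4 e4 f4
  obtain ⟨t1, _, rfl⟩ := Finset.mem_image.1 (Finset.mem_filter.1 h1).1
  obtain ⟨t2, _, rfl⟩ := Finset.mem_image.1 (Finset.mem_filter.1 h2).1
  obtain ⟨t3, _, rfl⟩ := Finset.mem_image.1 (Finset.mem_filter.1 h3).1
  obtain ⟨t4, _, rfl⟩ := Finset.mem_image.1 (Finset.mem_filter.1 h4).1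
  have hD := onan (cj p k) (rep_hf p k a) (rep_hf p k b) (rep_hf p k c) (rep_hf p k d)
    (rep_hf p k e) (rep_hf p k f) (rep_nrm p k a) (rep_nrm p k b) (rep_nrm p k c) (rep_nrm p k d)
    (rep_nrm p k e) (rep_nrm p k f) (fun h => hca (rep_inj p k h)) (fun h => hed (rep_inj p k h))
    (fun h => hfb (rep_inj p k h)) (line_dt p k t1 a1 b1 c1) (line_dt p k t2 a2 d2 e2)
    (line_dt p k t3 b3 d3 f3) (line_dt p k t4 c4 e4 f4)
  -- a vanishing determinant puts `d` on the line through `a` and `b`
  clear c1 a2 e2 b3 f3 c4 e4 f4 h2 h3 h4 hca hed hfb hce h1 d2 d3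
  rcases t1 with m | ⟨m, n⟩
  · rcases a with _ | a <;> rcases b with _ | b <;> rcases d with _ | d <;>
      simp only [line, rep, mem_filter, mem_univ, true_and, mul_one, mul_zero, add_zero, dt,
        zero_mul, one_mul, sub_zero, zero_sub, zero_add, one_ne_zero, zero_ne_one] at a1 b1 hD ⊢
    · exact absurd rfl hab
    · linear_combination hD + b1
    · linear_combination -hD + a1
    · have hne : b.1.2 - a.1.2 ≠ 0 := by
        intro h0
        apply hab
        congr 1
        apply Subtype.ext
        exact Prod.ext (by rw [a1, b1]) (sub_eq_zero.1 h0).symm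
      have h5 : (b.1.2 - a.1.2) * (d.1.1 - m) = 0 := by
        rw [a1, b1] at hD
        linear_combination -hD
      rcases mul_eq_zero.1 h5 with h5 | h5
      · exact absurd h5 hne
      · exact sub_eq_zero.1 h5
  · rcases a with _ | a <;> rcases b with _ | b <;> rcases d with _ | d <;>
      simp only [line, rep, mem_filter, mem_univ, true_and, mul_one, mul_zero, add_zero, dt,
        zero_mul, one_mul, sub_zero, zero_sub, zero_add, one_ne_zero, zero_ne_one] at a1 b1 hD ⊢
    · apply hab
      congr 1
      apply Subtype.ext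
      have h6 : a.1.1 = b.1.1 := by linear_combination -hD
      exact Prod.ext h6 (by rw [a1, b1, h6])
    · have hne : b.1.1 - a.1.1 ≠ 0 := by
        intro h0
        apply hab
        congr 1
        apply Subtype.ext
        have h6 := (sub_eq_zero.1 h0).symm
        exact Prod.ext h6 (by rw [a1, b1, h6])
      have h5 : (b.1.1 - a.1.1) * (d.1.2 - (m * d.1.1 + n)) = 0 := by
        rw [a1, b1] at hD
        linear_combination hD
      rcases mul_eq_zero.1 h5 with h5 | h5
      · exact absurd h5 hne
      · exact sub_eq_zero.1 h5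

include hk hF in
theorem card_pts : Fintype.card (Pts F p k) = (p ^ k) ^ 3 + 1 := by
  rw [Fintype.card_option]
  congr 1
  have h1 : Fintype.card (Aff F p k) =
      (univ.filter (fun z : F × F => z.2 + cj p k z.2 = z.1 * cj p k z.1)).card := by
    unfold Aff
    exact Fintype.card_subtype _
  rw [h1, Finset.card_filter, Fintype.sum_prod_type]
  have h2 : ∀ x : F, (∑ y : F, if (x, y).2 + cj p k (x, y).2 = (x, y).1 * cj p k (x, y).1
      then 1 else 0) = p ^ k := by
    intro x
    rw [← Finset.card_filter]
    exact card_trace p k hk hF (x * cj p k x) (by rw [map_mul, cj_cj p k hF]; ring)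
  rw [Finset.sum_congr rfl (fun x _ => h2 x), Finset.sum_const, Finset.card_univ, hF, smul_eq_mul]
  ring

end

end V1141.UN
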