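import Pool.Agent.V1141.UN.Count

/-!
# Linear spaces, and the Hermitian unitals with O'Nan's property
-/

namespace V1141.UN

open Finset

/-- `L` is the set of blocks of a Steiner system `S(2, m, |V|)`. -/
structure IsLS {V : Type} [DecidableEq V] (L : Finset (Finset V)) (m : ℕ) : Prop where
  card_eq : ∀ l ∈ L, l.card = m
  exists_line : ∀ x y : V, x ≠ y → ∃ l ∈ L, x ∈ l ∧ y ∈ l
  unique : ∀ l ∈ L, ∀ l' ∈ L, ∀ x y : V, x ≠ y → x ∈ l → y ∈ l → x ∈ l' → y ∈ l' → l = l'

/-- `L` contains no O'Nan configuration. -/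
def ONF {V : Type} [DecidableEq V] (L : Finset (Finset V)) : Prop :=
  ∀ a b c d e f : V, c ≠ a → e ≠ d → f ≠ b → a ≠ b → a ≠ d → b ≠ d → c ≠ e →
    ∀ l1 ∈ L, ∀ l2 ∈ L, ∀ l3 ∈ L, ∀ l4 ∈ L,
    a ∈ l1 → b ∈ l1 → c ∈ l1 → a ∈ l2 → d ∈ l2 → e ∈ l2 → b ∈ l3 → d ∈ l3 → f ∈ l3 →
    c ∈ l4 → e ∈ l4 → f ∈ l4 → d ∈ l1

section

variable {F : Type} [Field F] (j : F →+* F)

/-- determinant of three vectors -/
def dt (a b d : F × F × F) : F :=
  a.1 * (b.2.1 * d.2.2 - b.2.2 * d.2.1) - a.2.1 * (b.1 * d.2.2 - b.2.2 * d.1)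
    + a.2.2 * (b.1 * d.2.1 - b.2.1 * d.1)

/-- the hermitian form -/
def hf (a b : F × F × F) : F :=
  a.1 * j b.2.2 + a.2.2 * j b.1 - a.2.1 * j b.2.1

lemma gram (a b d : F × F × F) (ha : hf j a a = 0) (hb : hf j b b = 0)
    (hd : hf j d d = 0) :
    hf j a b * hf j b d * hf j d a + hf j b a * hf j d b * hf j a d = dt a b d * j (dt a b d) := by
  obtain ⟨a0, a1, a2⟩ := a
  obtain ⟨b0, b1, b2⟩ := b
  obtain ⟨d0, d1, d2⟩ := d
  simp only [hf, dt, map_add, map_sub, map_mul] at *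
  generalize j a0 = A0 at *
  generalize j a1 = A1 at *
  generalize j a2 = A2 at *
  generalize j b0 = B0 at *
  generalize j b1 = B1 at *
  generalize j b2 = B2 at *
  generalize j d0 = D0 at *
  generalize j d1 = D1 at *
  generalize j d2 = D2 at *
  have key : (a0 * A2 + a2 * A0 - a1 * A1) * ((b0 * B2 + b2 * B0 - b1 * B1) *
        (d0 * D2 + d2 * D0 - d1 * D1) - (b0 * D2 + b2 * D0 - b1 * D1) *
        (d0 * B2 + d2 * B0 - d1 * B1))
      - (a0 * B2 + a2 * B0 - a1 * B1) * ((b0 * A2 + b2 * A0 - b1 * A1) *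
        (d0 * D2 + d2 * D0 - d1 * D1) - (b0 * D2 + b2 * D0 - b1 * D1) *
        (d0 * A2 + d2 * A0 - d1 * A1))
      + (a0 * D2 + a2 * D0 - a1 * D1) * ((b0 * A2 + b2 * A0 - b1 * A1) *
        (d0 * B2 + d2 * B0 - d1 * B1) - (b0 * B2 + b2 * B0 - b1 * B1) *
        (d0 * A2 + d2 * A0 - d1 * A1))
      = (a0 * (b1 * d2 - b2 * d1) - a1 * (b0 * d2 - b2 * d0) + a2 * (b0 * d1 - b1 * d0)) *
        (A0 * (B1 * D2 - B2 * D1) - A1 * (B0 * D2 - B2 * D0) + A2 * (B0 * D1 - B1 * D0)) := by
    ring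
  rw [ha, hb, hd] at key
  linear_combination key

/-- normalised representatives -/
def Nrm (v : F × F × F) : Prop := v.1 = 1 ∨ v = (0, 0, 1)

lemma nrm_eq {a c : F × F × F} (ha : Nrm a) (hc : Nrm c) {D x : F} (hD : D ≠ 0)
    (h : D • c = x • a) : c = a := by
  obtain ⟨a0, a1, a2⟩ := a
  obtain ⟨c0, c1, c2⟩ := c
  simp only [Nrm, Prod.mk.injEq, Prod.smul_mk, smul_eq_mul] at *
  obtain ⟨h0, h1, h2⟩ := h
  rcases ha with ha | ⟨ha0, ha1, ha2⟩ <;> rcases hc with hc | ⟨hc0, hc1, hc2⟩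
  · subst ha hc
    simp only [mul_one] at h0
    subst h0
    exact ⟨rfl, mul_left_cancel₀ hD h1, mul_left_cancel₀ hD h2⟩
  · subst ha hc0
    simp only [mul_zero, mul_one] at h0
    subst h0
    exfalso
    rw [hc2, zero_mul, mul_one] at h2
    exact hD h2
  · subst ha0 hc
    simp only [mul_zero, mul_one] at h0
    exact absurd h0 hD
  · subst ha0 ha1 ha2 hc0 hc1 hc2
    exact ⟨rfl, rfl, rfl⟩

lemma hf_comb (a b : F × F × F) (x y : F) :
    hf j (x • a + y • b) (x • a + y • b) = x * j x * hf j a a + x * j y * hf j a b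
      + y * j x * hf j b a + y * j y * hf j b b := by
  obtain ⟨a0, a1, a2⟩ := a
  obtain ⟨b0, b1, b2⟩ := b
  simp only [hf, Prod.smul_mk, Prod.mk_add_mk, smul_eq_mul, map_add, map_mul]
  ring

lemma hf_smul (a : F × F × F) (x : F) : hf j (x • a) (x • a) = x * j x * hf j a a := by
  obtain ⟨a0, a1, a2⟩ := a
  simp only [hf, Prod.smul_mk, smul_eq_mul, map_mul]
  ring

lemma hf_rel {a b c : F × F × F} {D x y : F} (ha : hf j a a = 0) (hb : hf j b b = 0)
    (hc : hf j c c = 0) (h : D • c = x • a + y • b) :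
    x * j y * hf j a b = - (y * j x * hf j b a) := by
  have h1 := hf_comb j a b x y
  rw [← h, hf_smul, ha, hb, hc] at h1
  linear_combination -h1

lemma cramer (a b d c : F × F × F) :
    dt a b d • c = dt c b d • a + dt a c d • b + dt a b c • d := by
  obtain ⟨a0, a1, a2⟩ := a
  obtain ⟨b0, b1, b2⟩ := b
  obtain ⟨c0, c1, c2⟩ := c
  obtain ⟨d0, d1, d2⟩ := d
  simp only [dt, Prod.smul_mk, Prod.mk_add_mk, smul_eq_mul, Prod.mk.injEq]
  refine ⟨?_, ?_, ?_⟩ <;> ring

lemma dt_comb (a b d : F × F × F) (x y z w s t : F) :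
    dt (x • a + y • b) (z • a + w • d) (s • b + t • d) = - (x * w * s + y * z * t) * dt a b d := by
  obtain ⟨a0, a1, a2⟩ := a
  obtain ⟨b0, b1, b2⟩ := b
  obtain ⟨d0, d1, d2⟩ := d
  simp only [dt, Prod.smul_mk, Prod.mk_add_mk, smul_eq_mul]
  ring

lemma dt_smul (a b d : F × F × F) (x : F) : dt (x • a) (x • b) (x • d) = x ^ 3 * dt a b d := by
  obtain ⟨a0, a1, a2⟩ := a
  obtain ⟨b0, b1, b2⟩ := b
  obtain ⟨d0, d1, d2⟩ := d
  simp only [dt, Prod.smul_mk, smul_eq_mul]
  ring

/-- O'Nan's theorem in coordinates. -/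
theorem onan {a b c d e f : F × F × F}
    (ha : hf j a a = 0) (hb : hf j b b = 0) (hc : hf j c c = 0) (hd : hf j d d = 0)
    (he : hf j e e = 0) (hf' : hf j f f = 0)
    (na : Nrm a) (nb : Nrm b) (nc : Nrm c) (nd : Nrm d) (ne : Nrm e) (nf : Nrm f)
    (hca : c ≠ a) (hed : e ≠ d) (hfb : f ≠ b)
    (h1 : dt a b c = 0) (h2 : dt a d e = 0) (h3 : dt b d f = 0) (h4 : dt c e f = 0) :
    dt a b d = 0 := by
  by_contra hD
  have hc' : dt a b d • c = dt c b d • a + dt a c d • b := by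
    have := cramer a b d c
    rw [h1, zero_smul, add_zero] at this
    exact this
  have he' : dt a b d • e = dt e b d • a + dt a b e • d := by
    have := cramer a b d e
    have h0 : dt a e d = 0 := by rw [← neg_eq_zero, ← h2]; simp only [dt]; ring
    rw [h0, zero_smul, add_zero] at this
    exact this
  have hf'' : dt a b d • f = dt a f d • b + dt a b f • d := by
    have := cramer a b d f
    have h0 : dt f b d = 0 := by rw [← h3]; simp only [dt]; ring
    rw [h0, zero_smul, zero_add] at this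
    exact this
  set D := dt a b d with hDdef
  set x := dt c b d
  set y := dt a c d
  set z := dt e b d
  set w := dt a b e
  set s := dt a f d
  set t := dt a b f
  have hy : y ≠ 0 := by
    intro h0
    rw [h0, zero_smul, add_zero] at hc'
    exact hca (nrm_eq na nc hD hc')
  have hz : z ≠ 0 := by
    intro h0
    rw [h0, zero_smul, zero_add] at he'
    exact hed (nrm_eq nd ne hD he')
  have ht : t ≠ 0 := by
    intro h0
    rw [h0, zero_smul, add_zero] at hf''
    exact hfb (nrm_eq nb nf hD hf'')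
  have hR : x * w * s = - (y * z * t) := by
    have h5 := dt_smul c e f D
    rw [hc', he', hf'', dt_comb, h4, mul_zero] at h5
    have h6 : x * w * s + y * z * t = 0 := by
      have h7 := (mul_eq_zero.1 h5).resolve_right hD
      linear_combination -h7
    linear_combination h6
  have hR' : j x * j w * j s = - (j y * j z * j t) := by
    rw [← map_mul, ← map_mul, hR]; simp
  have e1 := hf_rel j ha hb hc hc'
  have e2 := hf_rel j ha hd he he'
  have e3 := hf_rel j hb hd hf' hf''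
  have key : (y * z * t) * (j y * j z * j t) *
      (hf j a b * hf j b d * hf j d a + hf j b a * hf j d b * hf j a d) = 0 := by
    have e4 : (x * j y * hf j a b) * (s * j t * hf j b d) * (w * j z * hf j d a)
        = - ((y * j x * hf j b a) * (t * j s * hf j d b) * (z * j w * hf j a d)) := by
      rw [e1, e3]
      have e5 : w * j z * hf j d a = - (z * j w * hf j a d) := by linear_combination e2
      rw [e5]; ring
    have e6 : (x * w * s) * (j y * j z * j t) * (hf j a b * hf j b d * hf j d a)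
        = - ((y * z * t) * (j x * j w * j s) * (hf j b a * hf j d b * hf j a d)) := by
      linear_combination e4
    rw [hR, hR'] at e6
    linear_combination -e6
  have hne : (y * z * t) * (j y * j z * j t) ≠ 0 := by
    have hj0 : ∀ u : F, u ≠ 0 → j u ≠ 0 := fun u hu h0 => hu ((map_eq_zero j).1 h0)
    exact mul_ne_zero (mul_ne_zero (mul_ne_zero hy hz) ht)
      (mul_ne_zero (mul_ne_zero (hj0 _ hy) (hj0 _ hz)) (hj0 _ ht))
  have h8 := (mul_eq_zero.1 key).resolve_left hne
  rw [gram j a b d ha hb hd] at h8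
  rcases mul_eq_zero.1 h8 with h8 | h8
  · exact hD h8
  · exact hD ((map_eq_zero j).1 h8)

end

end V1141.UN
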